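import Pool.Agent.SVR.Main

/-!
# MP_aa9902_co, Q1, full answer (affirmative)

There is an absolute constant `C > 0` such that for all `n, m ≥ 1`, all reals `R ≥ Δ` and every real
`n × m` matrix `V` with `|V i j| ≤ 1`, all row `l1` norms at most `R` and all column `l1` norms at most
`Δ`, some sign vector `y` has `|∑ j, V i j * y j| ≤ C * √R` for every row `i`.

The proof is in `Pool/Agent/SVR/`, see `Pool/Agent/SVR/README.md` for an overview.
-/

set_option autoImplicit false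

namespace Pool.Agent.Results.MP_aa9902_co.FullSqrtBound

theorem result :
    ∃ C : ℝ, 0 < C ∧
      ∀ (n m : ℕ), 1 ≤ n → 1 ≤ m → ∀ (R Δ : ℝ), Δ ≤ R → ∀ V : Matrix (Fin n) (Fin m) ℝ,
        (∀ i j, |V i j| ≤ 1) →
        (∀ i, ∑ j, |V i j| ≤ R) →
        (∀ j, ∑ i, |V i j| ≤ Δ) →
        ∃ y : Fin m → ℝ, (∀ j, y j = 1 ∨ y j = -1) ∧
          ∀ i, |∑ j, V i j * y j| ≤ C * √R := by
  obtain ⟨C, hC, h⟩ := Pool.Agent.SVR.main
  exact ⟨C, hC, fun n m _ _ R Δ hΔ V h1 h2 h3 => h n m V R Δ hΔ h1 h2 h3⟩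

end Pool.Agent.Results.MP_aa9902_co.FullSqrtBound
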